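import Pool.Agent.L5helper3.Hilb.Fld

/-!
# Asymptotics of the Hilbert function
-/

set_option autoImplicit false

namespace Pool.Agent.L5helper3.Hilb

open Filter Topology Asymptotics

theorem sN_eq (t k : ℕ) : sN t k = (t + k - 1).choose k := by
  have := Sym.card_sym_eq_choose (α := Fin t) k
  rwa [Fintype.card_fin] at this

theorem SN_succ (t k : ℕ) : SN t (k + 1) = (k + t).choose t := by
  induction k with
  | zero =>
    rw [SN, Finset.sum_range_one, sN_eq]
    simp
  | succ k ih =>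
    rw [SN, Finset.sum_range_succ]
    change SN t (k + 1) + _ = _
    rw [ih, sN_eq]
    have h1 : t + (k + 1) - 1 = k + t := by omega
    rw [h1]
    have h2 : (k + t).choose t = (k + t).choose k := by
      rw [← Nat.choose_symm_add, ]
    have h3 : (k + 1 + t).choose t = (k + 1 + t).choose (k + 1) := by
      rw [← Nat.choose_symm_add]
    rw [h2, h3, show k + 1 + t = (k + t) + 1 by omega, Nat.choose_succ_succ]

theorem choose_lim (t : ℕ) (a : ℕ → ℕ) (ha : Tendsto (fun M => (a M : ℝ) / M) atTop (𝓝 1)) :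
    Tendsto (fun M : ℕ => (t.factorial : ℝ) * ((a M).choose t) / (M : ℝ) ^ t) atTop (𝓝 1) := by
  have hat : Tendsto a atTop atTop := by
    have h1 : Tendsto (fun M : ℕ => (a M : ℝ)) atTop atTop := by
      have h2 : Tendsto (fun M : ℕ => ((a M : ℝ) / M) * M) atTop atTop :=
        ha.pos_mul_atTop one_pos tendsto_natCast_atTop_atTop
      refine h2.congr' ?_
      filter_upwards [eventually_gt_atTop 0] with M hM
      have : (M : ℝ) ≠ 0 := by exact_mod_cast hM.ne'
      field_simp
    exact tendsto_natCast_atTop_iff.1 h1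
  have h1 := (isEquivalent_choose t).comp_tendsto hat
  have h2 : ∀ᶠ M in atTop, ((fun n : ℕ => ((n : ℝ) ^ t / t.factorial)) ∘ a) M ≠ 0 := by
    filter_upwards [hat.eventually (eventually_gt_atTop 0)] with M hM
    have h3 : (a M : ℝ) ≠ 0 := by exact_mod_cast hM.ne'
    have h4 : (t.factorial : ℝ) ≠ 0 := by exact_mod_cast t.factorial_ne_zero
    simp only [Function.comp_apply]
    positivity
  rw [isEquivalent_iff_tendsto_one h2] at h1
  have h3 := h1.mul (ha.pow t)
  rw [one_pow, mul_one] at h3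
  refine h3.congr' ?_
  filter_upwards [hat.eventually (eventually_gt_atTop 0), eventually_gt_atTop 0] with M hM hM'
  have h4 : (a M : ℝ) ≠ 0 := by exact_mod_cast hM.ne'
  have h5 : (M : ℝ) ≠ 0 := by exact_mod_cast hM'.ne'
  have h6 : (t.factorial : ℝ) ≠ 0 := by exact_mod_cast t.factorial_ne_zero
  simp only [Pi.div_apply, Function.comp_apply]
  rw [div_pow]
  field_simp

theorem lim_shift (b c : ℕ) : Tendsto (fun M : ℕ => ((M - c + b : ℕ) : ℝ) / M) atTop (𝓝 1) := by
  have h1 : Tendsto (fun M : ℕ => (1 : ℝ) + ((b : ℝ) - c) / M) atTop (𝓝 (1 + 0)) :=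
    tendsto_const_nhds.add (tendsto_const_div_atTop_nhds_zero_nat _)
  rw [add_zero] at h1
  refine h1.congr' ?_
  filter_upwards [eventually_ge_atTop (c + 1)] with M hM
  have h2 : ((M - c + b : ℕ) : ℝ) = M - c + b := by
    push_cast [Nat.cast_sub (by omega : c ≤ M)]
    ring
  have h3 : (M : ℝ) ≠ 0 := by
    have : M ≠ 0 := by omega
    exact_mod_cast this
  rw [h2]
  field_simp
  ring

theorem sN_lim (t : ℕ) :
    Tendsto (fun M : ℕ => (t.factorial : ℝ) * (sN t M : ℕ) / (M : ℝ) ^ t) atTop (𝓝 0) := by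
  rcases t with _ | t
  · refine tendsto_const_nhds.congr' ?_
    filter_upwards [eventually_gt_atTop 0] with M hM
    have : sN 0 M = 0 := by
      rw [sN_eq]
      apply Nat.choose_eq_zero_of_lt
      omega
    rw [this]
    simp
  · have h1 := choose_lim t (fun M => M - 0 + t) (lim_shift t 0)
    have h2 : Tendsto (fun M : ℕ => ((t + 1 : ℕ) : ℝ) / M) atTop (𝓝 0) :=
      tendsto_const_div_atTop_nhds_zero_nat _
    have h3 := h1.mul h2
    rw [mul_zero] at h3
    refine h3.congr' ?_
    filter_upwards [eventually_gt_atTop 0] with M hM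
    have h5 : (M : ℝ) ≠ 0 := by exact_mod_cast hM.ne'
    have h6 : sN (t + 1) M = (M - 0 + t).choose t := by
      rw [sN_eq]
      have : t + 1 + M - 1 = M + t := by omega
      rw [this, Nat.sub_zero, Nat.choose_symm_add]
    rw [h6, Nat.factorial_succ, pow_succ]
    push_cast
    field_simp

theorem hilbert_lim (t d : ℕ) (H : ℕ → ℕ) (hu : ∀ M, H M ≤ d * SN t M + sN t M) (c : ℕ)
    (hl : ∀ k, d * SN t (k + 1) ≤ H (c + k)) :
    Tendsto (fun M : ℕ => (t.factorial : ℝ) * (H M : ℕ) / (M : ℝ) ^ t) atTop (𝓝 (d : ℝ)) := by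
  have hf : (0 : ℝ) < t.factorial := by exact_mod_cast t.factorial_pos
  have h1 : Tendsto (fun M : ℕ => (d : ℝ) *
      ((t.factorial : ℝ) * ((M - c + t : ℕ).choose t) / (M : ℝ) ^ t)) atTop (𝓝 ((d : ℝ) * 1)) :=
    (choose_lim t (fun M => M - c + t) (lim_shift t c)).const_mul _
  have h2 : Tendsto (fun M : ℕ => (d : ℝ) *
      ((t.factorial : ℝ) * ((M - 1 + t : ℕ).choose t) / (M : ℝ) ^ t) +
      (t.factorial : ℝ) * (sN t M : ℕ) / (M : ℝ) ^ t) atTop (𝓝 ((d : ℝ) * 1 + 0)) :=
    ((choose_lim t (fun M => M - 1 + t) (lim_shift t 1)).const_mul _).add (sN_lim t)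
  rw [add_zero] at h2
  rw [mul_one] at h1 h2
  refine tendsto_of_tendsto_of_tendsto_of_le_of_le' h1 h2 ?_ ?_
  · filter_upwards [eventually_ge_atTop (c + 1)] with M hM
    have h5 : (0 : ℝ) < (M : ℝ) ^ t := by
      have : 0 < M := by omega
      positivity
    have h6 := hl (M - c)
    rw [SN_succ, show c + (M - c) = M by omega] at h6
    have h7 : (d : ℝ) * ((M - c + t : ℕ).choose t : ℕ) ≤ (H M : ℕ) := by exact_mod_cast h6
    rw [← mul_div_assoc]
    apply div_le_div_of_nonneg_right _ h5.le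
    nlinarith
  · filter_upwards [eventually_ge_atTop 1] with M hM
    have h5 : (0 : ℝ) < (M : ℝ) ^ t := by
      have : 0 < M := by omega
      positivity
    have h6 := hu M
    obtain ⟨k, rfl⟩ : ∃ k, M = k + 1 := ⟨M - 1, by omega⟩
    rw [SN_succ] at h6
    rw [show k + 1 - 1 + t = k + t by omega]
    have h7 : ((H (k + 1) : ℕ) : ℝ) ≤ (d : ℝ) * ((k + t : ℕ).choose t : ℕ) + (sN t (k + 1) : ℕ) := by
      exact_mod_cast h6
    rw [← mul_div_assoc, ← add_div]
    apply div_le_div_of_nonneg_right _ h5.le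
    nlinarith

end Pool.Agent.L5helper3.Hilb
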