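import Pool.Agent.L5helper3.Hilb.Upper

/-!
# Bounds for the Hilbert function of a finitely generated field
-/

set_option autoImplicit false

namespace Pool.Agent.L5helper3.Hilb

open Polynomial
open Pool.Agent.L5helper3.FewForms (ex exists_ex ex_degree ex_injective)

variable {K F : Type*} [Field K] [Field F] [Algebra K F]

/-- the span of `1` and `w` -/
def spn (K : Type*) {F : Type*} [Field K] [Field F] [Algebra K F] {n : ℕ} (w : Fin n → F) :
    Submodule K F := Submodule.span K ({1} ∪ Set.range w)

theorem one_mem_spn {n : ℕ} (w : Fin n → F) : (1 : F) ∈ spn K w :=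
  Submodule.subset_span (Or.inl rfl)

theorem mem_spn {n : ℕ} (w : Fin n → F) (j : Fin n) : w j ∈ spn K w :=
  Submodule.subset_span (Or.inr ⟨j, rfl⟩)

theorem one_mem_pow {V : Submodule K F} (h1 : (1 : F) ∈ V) (m : ℕ) : (1 : F) ∈ V ^ m := by
  induction m with
  | zero => rw [pow_zero]; exact Submodule.one_le.mp le_rfl
  | succ m ih =>
    rw [pow_succ]
    have := Submodule.mul_mem_mul ih h1
    rwa [mul_one] at this

theorem pow_mono {V : Submodule K F} (h1 : (1 : F) ∈ V) {a b : ℕ} (h : a ≤ b) : V ^ a ≤ V ^ b := by
  obtain ⟨c, rfl⟩ := Nat.exists_eq_add_of_le h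
  rw [pow_add]
  intro x hx
  have := Submodule.mul_mem_mul hx (one_mem_pow h1 c)
  rwa [mul_one] at this

theorem aeval_mem_pow {V : Submodule K F} (h1 : (1 : F) ∈ V) {σ : Type*} (u : σ → F)
    (hu : ∀ i, u i ∈ V) (P : MvPolynomial σ K) : MvPolynomial.aeval u P ∈ V ^ P.totalDegree := by
  classical
  rw [MvPolynomial.aeval_def, MvPolynomial.eval₂_eq]
  refine Submodule.sum_mem _ fun s hs => ?_
  rw [← Algebra.smul_def]
  refine Submodule.smul_mem _ _ ?_
  refine pow_mono h1 (MvPolynomial.le_totalDegree hs) ?_
  have h2 : ∀ (T : Finset σ), ∏ i ∈ T, u i ^ s i ∈ V ^ (∑ i ∈ T, s i) := by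
    intro T
    induction T using Finset.induction_on with
    | empty => simp only [Finset.prod_empty, Finset.sum_empty]; exact one_mem_pow h1 0
    | insert i T hi ih =>
      rw [Finset.prod_insert hi, Finset.sum_insert hi, pow_add]
      exact Submodule.mul_mem_mul (Submodule.pow_mem_pow _ (hu i) _) ih
  exact h2 s.support

/-- the number of monomials of degree `k` in `t` variables -/
abbrev sN (t k : ℕ) : ℕ := Fintype.card (Sym (Fin t) k)

/-- the number of monomials of degree less than `k` in `t` variables -/
def SN (t k : ℕ) : ℕ := ∑ j ∈ Finset.range k, sN t j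

/-- **Bounds for the Hilbert function.** -/
theorem hilbert_bounds [IsAlgClosed K] {n : ℕ} (w : Fin n → F)
    (hw : IntermediateField.adjoin K (Set.range w) = ⊤) :
    ∃ t d : ℕ, 1 ≤ d ∧ Algebra.trdeg K F = t ∧
      (∀ M, Module.finrank K ((spn K w) ^ M : Submodule K F) ≤ d * SN t M + sN t M) ∧
      ∃ c, ∀ k, d * SN t (k + 1) ≤ Module.finrank K ((spn K w) ^ (c + k) : Submodule K F) := by
  classical
  have hinf : Infinite K := IsAlgClosed.instInfinite
  obtain ⟨t, u, hu1, hu2, hu3⟩ := exists_normal (K := K) n w
  let R := MvPolynomial (Fin t) K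
  let E := FractionRing R
  letI aRF : Algebra R F := (MvPolynomial.aeval u : R →ₐ[K] F).toRingHom.toAlgebra
  have hRF : ∀ P : R, algebraMap R F P = MvPolynomial.aeval u P := fun P => rfl
  have hinj : Function.Injective (algebraMap R F) := hu2
  letI aEF : Algebra E F := (IsFractionRing.lift hinj : E →+* F).toAlgebra
  haveI tREF : IsScalarTower R E F := IsScalarTower.of_algebraMap_eq fun P =>
    (IsFractionRing.lift_algebraMap hinj P).symm
  haveI tKRF : IsScalarTower K R F := IsScalarTower.of_algebraMap_eq fun c => by
    rw [hRF]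
    exact (MvPolynomial.algHom_C _ _).symm
  haveI tKEF : IsScalarTower K E F := IsScalarTower.of_algebraMap_eq fun c => by
    rw [IsScalarTower.algebraMap_apply K R E, ← IsScalarTower.algebraMap_apply R E F,
      ← IsScalarTower.algebraMap_apply K R F]
  have hwint : ∀ j, IsIntegral E (w j) := by
    intro j
    obtain ⟨Ψ, h1, -, h3⟩ := (hu3 j).exists_eq
    have h4 : IsIntegral R (w j) := ⟨Ψ, h1, h3⟩
    exact h4.tower_top
  have hfd : FiniteDimensional E F := by
    have h1 : FiniteDimensional E (IntermediateField.adjoin E (Set.range w)) :=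
      IntermediateField.finiteDimensional_adjoin (by rintro _ ⟨j, rfl⟩; exact hwint j)
    have h2 : IntermediateField.adjoin E (Set.range w) = ⊤ := by
      rw [eq_top_iff]
      intro x _
      have h3 : x ∈ IntermediateField.adjoin K (Set.range w) := by rw [hw]; trivial
      have h4 : IntermediateField.adjoin K (Set.range w) ≤
          (IntermediateField.adjoin E (Set.range w)).restrictScalars K := by
        rw [IntermediateField.adjoin_le_iff]
        exact IntermediateField.subset_adjoin E (Set.range w)
      exact h4 h3
    rw [h2] at h1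
    exact LinearEquiv.finiteDimensional
      (IntermediateField.topEquiv (F := E) (E := F)).toLinearEquiv
  set V := spn K w with hV
  have h1V : (1 : F) ∈ V := one_mem_spn w
  have hVfg : V.FG := Submodule.fg_span ((Set.finite_singleton _).union (Set.finite_range w))
  have hfdV : ∀ M, FiniteDimensional K (V ^ M : Submodule K F) := fun M =>
    Module.Finite.iff_fg.mpr (Submodule.FG.pow hVfg M)
  have huV : ∀ i, u i ∈ V := fun i => Submodule.span_mono Set.subset_union_right (hu1 i)
  have hVint : V ≤ intSub K u 1 := by
    rw [hV, spn, Submodule.span_le]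
    rintro x (hx | ⟨i, rfl⟩)
    · rw [Set.mem_singleton_iff] at hx
      subst hx
      have := IntAt.const (K := K) u 1 1
      rwa [map_one] at this
    · exact hu3 i
  refine ⟨t, Module.finrank E F, Module.finrank_pos, ?_, ?_, ?_⟩
  · -- transcendence degree
    have h1 : Algebra.IsAlgebraic E F := inferInstance
    have h2 : Algebra.IsAlgebraic R F := IsFractionRing.comap_isAlgebraic_iff.mpr h1
    have h3 : Algebra.IsAlgebraic (Algebra.adjoin K (Set.range u)) F := by
      constructor
      intro x
      obtain ⟨p, hp0, hp⟩ := h2.1 x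
      let e : R →+* Algebra.adjoin K (Set.range u) := (hu2.aevalEquiv : R ≃ₐ[K] _).toRingEquiv
      have he : Function.Injective e := hu2.aevalEquiv.injective
      refine ⟨p.map e, ?_, ?_⟩
      · intro h0
        exact hp0 ((Polynomial.map_eq_zero_iff he).1 h0)
      · rw [aeval_def, eval₂_map]
        rw [aeval_def] at hp
        have : (algebraMap (Algebra.adjoin K (Set.range u)) F).comp e = algebraMap R F := by
          apply RingHom.ext
          intro P
          exact hu2.algebraMap_aevalEquiv P
        rw [this]
        exact hp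
    have h4 : IsTranscendenceBasis K u :=
      hu2.isTranscendenceBasis_iff_isAlgebraic.mpr h3
    have h5 := h4.lift_cardinalMk_eq_trdeg
    simp only [Cardinal.mk_fin, Cardinal.lift_natCast] at h5
    have h6 : Cardinal.lift.{0} (Algebra.trdeg K F) = (t : Cardinal) := h5.symm
    rwa [Cardinal.lift_id'] at h6
  · intro M
    refine finrank_le_jets (E := E) (V ^ M) M ?_
    intro f hf
    have h1 : IntAt K u f M := pow_le_intSub hVint M hf
    obtain ⟨Ψ, h2, h3, h4⟩ := h1.exists_eq
    exact norm_degree (E := E) f M Ψ h2 h3 h4
  · -- lower bound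
    let b := Module.finBasis E F
    have hb : ∀ i, ∃ r s : MvPolynomial (Fin n) K, MvPolynomial.aeval w s ≠ 0 ∧
        b i * MvPolynomial.aeval w s = MvPolynomial.aeval w r := by
      intro i
      have h1 : b i ∈ IntermediateField.adjoin K (Set.range w) := by rw [hw]; trivial
      obtain ⟨r, s, hrs⟩ := (IntermediateField.mem_adjoin_range_iff K w _).1 h1
      have hs : MvPolynomial.aeval w s ≠ 0 := by
        intro h0
        rw [h0, div_zero] at hrs
        exact b.ne_zero i hrs
      exact ⟨r, s, hs, by rw [hrs, div_mul_cancel₀ _ hs]⟩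
    choose r s hs hrs using hb
    set y : F := ∏ i, MvPolynomial.aeval w (s i) with hy
    have hy0 : y ≠ 0 := Finset.prod_ne_zero_iff.mpr fun i _ => hs i
    let q : Fin (Module.finrank E F) → MvPolynomial (Fin n) K := fun i =>
      r i * ∏ j ∈ Finset.univ.erase i, s j
    have hq : ∀ i, y * b i = MvPolynomial.aeval w (q i) := by
      intro i
      rw [map_mul, ← hrs i, map_prod, hy, ← Finset.mul_prod_erase _ _ (Finset.mem_univ i)]
      ring
    let c := Finset.univ.sup (fun i => (q i).totalDegree)
    refine ⟨c, fun k => ?_⟩
    have hyb : ∀ i, y * b i ∈ V ^ c := by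
      intro i
      rw [hq i]
      exact pow_mono h1V (Finset.le_sup (f := fun i => (q i).totalDegree) (Finset.mem_univ i))
        (aeval_mem_pow h1V w (mem_spn w) (q i))
    let κ := Σ j : Fin (k + 1), Sym (Fin t) j
    let e1 : κ → E := fun p => algebraMap R E (MvPolynomial.monomial (ex p.2) 1)
    have he1 : LinearIndependent K e1 := by
      have h1 : LinearIndependent K (fun p : κ => (MvPolynomial.monomial (ex p.2) (1 : K) : R)) := by
        have h2 := (MvPolynomial.basisMonomials (Fin t) K).linearIndependent
        have h3 : Function.Injective (fun p : κ => ex p.2) := by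
          rintro ⟨j, s⟩ ⟨j', s'⟩ h
          have h4 : (j : ℕ) = j' := by
            rw [← ex_degree s, ← ex_degree s']
            exact congrArg Finsupp.degree h
          have h5 : j = j' := Fin.ext h4
          subst h5
          have h6 : s = s' := ex_injective h
          rw [h6]
        have h4 := h2.comp _ h3
        exact h4
      exact h1.map' (IsScalarTower.toAlgHom K R E).toLinearMap
        (LinearMap.ker_eq_bot.mpr (IsFractionRing.injective R E))
    have he2 : LinearIndependent E (fun i => y * b i) :=
      b.linearIndependent.map' (LinearMap.mulLeft E y)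
        (LinearMap.ker_eq_bot.mpr fun x x' h => mul_left_cancel₀ hy0 h)
    have he3 := linearIndependent_smul he1 he2
    have hmem : ∀ p : κ × Fin (Module.finrank E F), e1 p.1 • (y * b p.2) ∈ V ^ (c + k) := by
      rintro ⟨⟨j, s⟩, i⟩
      have h1 : e1 ⟨j, s⟩ • (y * b i) =
          (y * b i) * MvPolynomial.aeval u (MvPolynomial.monomial (ex s) (1 : K)) := by
        rw [Algebra.smul_def]
        change algebraMap E F (algebraMap R E _) * _ = _
        rw [← IsScalarTower.algebraMap_apply R E F, hRF, mul_comm]
      rw [h1, pow_add]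
      refine Submodule.mul_mem_mul (hyb i) ?_
      refine pow_mono h1V ?_ (aeval_mem_pow h1V u huV _)
      rw [MvPolynomial.totalDegree_monomial _ one_ne_zero]
      change (ex s).degree ≤ k
      rw [ex_degree]
      exact Nat.lt_succ_iff.mp j.2
    have hcard : Fintype.card (κ × Fin (Module.finrank E F)) =
        Module.finrank E F * SN t (k + 1) := by
      rw [Fintype.card_prod, Fintype.card_fin, Fintype.card_sigma,
        Fin.sum_univ_eq_sum_range (fun k => Fintype.card (Sym (Fin t) k)) (k + 1), mul_comm]
      rfl
    rw [← hcard]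
    have he4 : LinearIndependent K
        (fun p : κ × Fin (Module.finrank E F) => (⟨_, hmem p⟩ : (V ^ (c + k) : Submodule K F))) :=
      LinearIndependent.of_comp (V ^ (c + k)).subtype he3
    exact he4.fintype_card_le_finrank

end Pool.Agent.L5helper3.Hilb
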