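import Pool.Agent.L5helper3.Hilb.NormDeg
import Pool.Agent.L5helper3.FewForms.Mk

/-!
# Upper bound for the Hilbert function
-/

set_option autoImplicit false

namespace Pool.Agent.L5helper3.Hilb

open Polynomial
open Pool.Agent.L5helper3.FewForms (ex exists_ex ex_degree)

variable {K : Type*} [Field K] {t : ℕ}

/-- `x ↦ a + x s` -/
noncomputable def th (a : Fin t → K) : MvPolynomial (Fin t) K →ₐ[K] (MvPolynomial (Fin t) K)[X] :=
  MvPolynomial.aeval (fun i => C (MvPolynomial.C (a i)) + C (MvPolynomial.X i) * X)

theorem th_X (a : Fin t → K) (i : Fin t) :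
    th a (MvPolynomial.X i) = C (MvPolynomial.C (a i)) + C (MvPolynomial.X i) * X := by
  simp [th]

theorem th_C (a : Fin t → K) (c : K) : th a (MvPolynomial.C c) = C (MvPolynomial.C c) := by
  simp only [th, MvPolynomial.algHom_C]
  rfl

theorem th_natDegree (a : Fin t → K) (P : MvPolynomial (Fin t) K) :
    (th a P).natDegree ≤ P.totalDegree := by
  classical
  rw [th, MvPolynomial.aeval_def, MvPolynomial.eval₂_eq']
  refine natDegree_sum_le_of_forall_le _ _ fun s hs => ?_
  have h1 : (∏ i, (C (MvPolynomial.C (a i)) + C (MvPolynomial.X i) * X :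
      (MvPolynomial (Fin t) K)[X]) ^ s i).natDegree ≤ ∑ i, s i := by
    refine (coeff_prod_le Finset.univ _ (fun i => s i) ?_).1
    intro i _
    refine natDegree_pow_le.trans ((Nat.mul_le_mul_left _ ?_).trans (mul_one _).le)
    refine (natDegree_add_le _ _).trans ?_
    rw [natDegree_C]
    simp only [zero_le, sup_of_le_right]
    exact (natDegree_C_mul_le _ _).trans natDegree_X_le
  have h2 : (algebraMap K (MvPolynomial (Fin t) K)[X] (MvPolynomial.coeff s P)).natDegree = 0 := by
    exact natDegree_C _
  refine natDegree_mul_le.trans ?_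
  rw [h2, zero_add]
  refine h1.trans ?_
  have := MvPolynomial.le_totalDegree hs
  rwa [Finsupp.sum_fintype _ _ (fun _ => rfl)] at this

theorem th_coeff_zero (a : Fin t → K) (P : MvPolynomial (Fin t) K) :
    (th a P).coeff 0 = MvPolynomial.C (MvPolynomial.eval a P) := by
  induction P using MvPolynomial.induction_on with
  | C c => rw [th_C, coeff_C_zero, MvPolynomial.eval_C]
  | add p q hp hq => rw [map_add, coeff_add, hp, hq, map_add, map_add]
  | mul_X p i hp =>
    rw [map_mul, mul_coeff_zero, hp, th_X, coeff_add, coeff_C_zero, mul_coeff_zero, coeff_X_zero,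
      mul_zero, add_zero, map_mul, map_mul, MvPolynomial.eval_X]

theorem th_eval_one (a : Fin t → K) (P : MvPolynomial (Fin t) K) :
    MvPolynomial.aeval (fun i => MvPolynomial.X i - MvPolynomial.C (a i)) ((th a P).eval 1) = P := by
  induction P using MvPolynomial.induction_on with
  | C c => rw [th_C, eval_C, MvPolynomial.algHom_C]; rfl
  | add p q hp hq => rw [map_add, eval_add, map_add, hp, hq]
  | mul_X p i hp =>
    rw [map_mul, eval_mul, map_mul, hp, th_X, eval_add, eval_C, eval_mul, eval_C, eval_X, mul_one,
      map_add, MvPolynomial.aeval_X, MvPolynomial.algHom_C]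
    congr 1
    change MvPolynomial.C (a i) + _ = _
    ring

theorem th_ne_zero (a : Fin t → K) {P : MvPolynomial (Fin t) K} (hP : P ≠ 0) : th a P ≠ 0 := by
  intro h
  apply hP
  rw [← th_eval_one a P, h, eval_zero, map_zero]

theorem th_homogeneous (a : Fin t → K) (P : MvPolynomial (Fin t) K) (k : ℕ) :
    ((th a P).coeff k).IsHomogeneous k := by
  induction P using MvPolynomial.induction_on generalizing k with
  | C c =>
    rw [th_C, coeff_C]
    split_ifs with h
    · subst h; exact MvPolynomial.isHomogeneous_C _ _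
    · exact MvPolynomial.isHomogeneous_zero _ _ _
  | add p q hp hq => rw [map_add, coeff_add]; exact (hp k).add (hq k)
  | mul_X p i hp =>
    rw [map_mul, th_X, mul_add, coeff_add, coeff_mul_C, ← mul_assoc]
    refine MvPolynomial.IsHomogeneous.add ?_ ?_
    · have := (hp k).mul (MvPolynomial.isHomogeneous_C (Fin t) (a i))
      rwa [add_zero] at this
    · cases k with
      | zero =>
        rw [mul_coeff_zero, coeff_X_zero, mul_zero]
        exact MvPolynomial.isHomogeneous_zero _ _ _
      | succ k =>
        rw [coeff_mul_X, coeff_mul_C]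
        exact (hp k).mul (MvPolynomial.isHomogeneous_X _ i)

theorem hom_eq_zero {k : ℕ} {p : MvPolynomial (Fin t) K} (hp : p.IsHomogeneous k)
    (h : ∀ s : Sym (Fin t) k, p.coeff (ex s) = 0) : p = 0 := by
  ext s
  rw [MvPolynomial.coeff_zero]
  by_cases hs : s.degree = k
  · obtain ⟨s', hs'⟩ := exists_ex s hs
    rw [← hs']
    exact h s'
  · exact hp.coeff_eq_zero hs

end Pool.Agent.L5helper3.Hilb
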