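import Pool.Agent.L5helper3.Hilb.Asym
import Pool.Agent.H297R2.InBakerThm

/-!
# The degree of the variety with a given generic point whose coordinates are linear forms in
logarithms
-/

set_option autoImplicit false

namespace Pool.Agent.L5helper3.Hilb

open Filter Topology Module
open Pool.Agent.H301R2.SSE (QB mem_QB Lt Lt_one Lt_log)

/-- logarithms which are linearly independent over the rationals are, with `1`, linearly
independent over the algebraic numbers -/
theorem li_cons {N : ℕ} (l : Fin N → ℂ) (halg : ∀ j, IsAlgebraic ℚ (Complex.exp (l j)))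
    (hli : LinearIndependent ℚ l) :
    LinearIndependent QB (Fin.cons 1 l : Fin (N + 1) → ℂ) := by
  rw [Fintype.linearIndependent_iff]
  intro g hg
  rw [Fin.sum_univ_succ] at hg
  simp only [Fin.cons_zero, Fin.cons_succ] at hg
  have h1 : (g 0 : ℂ) + ∑ i : Fin N, (g i.succ : ℂ) * l i = 0 := by
    rw [← hg, Algebra.smul_def, mul_one]
    congr 1
  obtain ⟨h2, h3⟩ := Pool.Agent.H297R2.baker_inhom l halg hli (g 0) (mem_QB.1 (g 0).2)
    (fun i => (g i.succ : ℂ)) (fun i => mem_QB.1 (g i.succ).2) h1
  intro i
  refine Fin.cases ?_ (fun i => ?_) i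
  · exact_mod_cast h2
  · exact_mod_cast h3 i

/-- values of the polynomials of degree at most `M` -/
noncomputable def valSpace {N : ℕ} (l : Fin N → ℂ) (M : ℕ) : Submodule QB ℂ :=
  (MvPolynomial.restrictTotalDegree (Fin N) QB M).map (MvPolynomial.aeval l).toLinearMap

theorem valSpace_eq {N : ℕ} (l : Fin N → ℂ) (M : ℕ) : valSpace l M = (spn QB l) ^ M := by
  apply le_antisymm
  · rintro _ ⟨P, hP, rfl⟩
    have hP' : P.totalDegree ≤ M := (MvPolynomial.mem_restrictTotalDegree _ _ _).1 hP
    exact pow_mono (one_mem_spn l) hP' (aeval_mem_pow (one_mem_spn l) l (mem_spn l) P)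
  · induction M with
    | zero =>
      rw [pow_zero, Submodule.one_le]
      refine ⟨1, (MvPolynomial.mem_restrictTotalDegree _ _ _).2 (by simp), ?_⟩
      simp
    | succ M ih =>
      rw [pow_succ, Submodule.mul_le]
      intro x hx v hv
      obtain ⟨P, hP, rfl⟩ := ih hx
      have hv' : ∃ Q : MvPolynomial (Fin N) QB, Q.totalDegree ≤ 1 ∧ MvPolynomial.aeval l Q = v := by
        induction hv using Submodule.span_induction with
        | mem v hv =>
          rcases hv with hv | ⟨j, rfl⟩
          · rw [Set.mem_singleton_iff] at hv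
            subst hv
            exact ⟨1, by simp, by simp⟩
          · exact ⟨MvPolynomial.X j, by simp, by simp⟩
        | zero => exact ⟨0, by simp, by simp⟩
        | add x y _ _ hx hy =>
          obtain ⟨Q1, h1, h1'⟩ := hx
          obtain ⟨Q2, h2, h2'⟩ := hy
          exact ⟨Q1 + Q2, (MvPolynomial.totalDegree_add _ _).trans (max_le h1 h2), by
            rw [map_add, h1', h2']⟩
        | smul a x _ hx =>
          obtain ⟨Q, h1, h1'⟩ := hx
          exact ⟨a • Q, (MvPolynomial.totalDegree_smul_le _ _).trans h1, by rw [map_smul, h1']⟩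
      obtain ⟨Q, hQ, rfl⟩ := hv'
      refine ⟨P * Q, (MvPolynomial.mem_restrictTotalDegree _ _ _).2 ?_, ?_⟩
      · exact (MvPolynomial.totalDegree_mul _ _).trans
          (add_le_add ((MvPolynomial.mem_restrictTotalDegree _ _ _).1 hP) hQ)
      · exact map_mul (MvPolynomial.aeval l) P Q

theorem main {N : ℕ} (l : Fin N → ℂ) (hl : ∀ j, l j ∈ Lt)
    (hli : LinearIndependent QB (Fin.cons 1 l : Fin (N + 1) → ℂ)) :
    ∃ t D : ℕ, 1 ≤ D ∧
      Algebra.trdeg QB (IntermediateField.adjoin QB (Set.range l)) = t ∧
      Tendsto (fun M : ℕ => (t.factorial : ℝ) * (finrank QB (valSpace l M) : ℕ) / (M : ℝ) ^ t) atTop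
        (𝓝 (D : ℝ)) ∧
      ∀ m : ℕ, 1 ≤ m → (N + 1) + (m - 1) * ((N + 1) ^ 2 / 4) ≤
        D * (m + t - 1).choose t + (m + t - 1).choose m := by
  classical
  have hac : IsAlgClosed QB := (algebraicClosure.isAlgClosure ℚ ℂ).isAlgClosed
  let F := IntermediateField.adjoin QB (Set.range l)
  let w : Fin N → F := fun j => ⟨l j, IntermediateField.subset_adjoin QB _ ⟨j, rfl⟩⟩
  have hw : IntermediateField.adjoin QB (Set.range w) = ⊤ := by
    rw [eq_top_iff]
    intro x _
    have h1 : (IntermediateField.adjoin QB (Set.range w)).map F.val = F := by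
      rw [IntermediateField.adjoin_map, ← Set.range_comp]
      rfl
    have h2 : (x : ℂ) ∈ (IntermediateField.adjoin QB (Set.range w)).map F.val := by
      rw [h1]; exact x.2
    obtain ⟨y, hy, hyx⟩ := (IntermediateField.mem_map _).1 h2
    have h3 : y = x := Subtype.ext hyx
    rwa [← h3]
  obtain ⟨t, D, hD, htr, hup, c, hlow⟩ := hilbert_bounds w hw
  have hinj : Function.Injective F.val.toLinearMap := Subtype.val_injective
  have hmap : (spn QB w).map F.val.toLinearMap = spn QB l := by
    rw [spn, spn, Submodule.map_span, Set.image_union, Set.image_singleton, ← Set.range_comp]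
    congr 2
  have hfr : ∀ M, finrank QB (valSpace l M) = finrank QB ((spn QB w) ^ M : Submodule QB F) := by
    intro M
    have h1 : ((spn QB w) ^ M).map F.val.toLinearMap = (spn QB l) ^ M := by
      rw [← hmap]
      exact Submodule.map_pow (spn QB w) F.val M
    rw [valSpace_eq, ← h1]
    exact (Submodule.equivMapOfInjective F.val.toLinearMap hinj _).finrank_eq.symm
  refine ⟨t, D, hD, htr, ?_, ?_⟩
  · exact hilbert_lim t D (fun M => finrank QB (valSpace l M)) (fun M => by rw [hfr]; exact hup M) c
      (fun k => by rw [hfr]; exact hlow k)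
  · intro m hm
    have hcons : Set.range (Fin.cons 1 l : Fin (N + 1) → ℂ) = {1} ∪ Set.range l := by
      rw [Fin.range_cons, Set.singleton_union]
    have hVr : finrank QB (spn QB l) = N + 1 := by
      rw [spn, ← hcons, finrank_span_eq_card hli, Fintype.card_fin]
    have hVfd : FiniteDimensional QB (spn QB l) := FiniteDimensional.span_of_finite QB
      ((Set.finite_singleton _).union (Set.finite_range l))
    have hVL : spn QB l ≤ Lt := by
      rw [spn, Submodule.span_le]
      rintro x (hx | ⟨j, rfl⟩)
      · rw [Set.mem_singleton_iff] at hx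
        subst hx
        exact Lt_one
      · exact hl j
    have hgr : ∀ k, (N + 1) + k * ((N + 1) ^ 2 / 4) ≤
        finrank QB ((spn QB l) ^ (k + 1) : Submodule QB ℂ) := by
      intro k
      induction k with
      | zero => rw [zero_add, pow_one, hVr]; simp
      | succ k ih =>
        have h1 := Pool.Agent.W256.pow_growth (spn QB l) hVL (one_mem_spn l) (k + 1)
          (Nat.succ_le_succ (Nat.zero_le k))
        rw [hVr] at h1
        calc (N + 1) + (k + 1) * ((N + 1) ^ 2 / 4)
            = ((N + 1) + k * ((N + 1) ^ 2 / 4)) + (N + 1) ^ 2 / 4 := by ring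
          _ ≤ _ := Nat.add_le_add_right ih _
          _ ≤ _ := h1
    obtain ⟨k, rfl⟩ : ∃ k, m = k + 1 := ⟨m - 1, by omega⟩
    have h1 := hgr k
    have h2 := hup (k + 1)
    rw [← hfr, valSpace_eq, SN_succ, sN_eq] at h2
    have h3 := h1.trans h2
    have e1 : k + 1 - 1 = k := by omega
    have e2 : k + 1 + t - 1 = k + t := by omega
    have e3 : t + (k + 1) - 1 = k + t := by omega
    rw [e1, e2]
    rwa [e3] at h3

end Pool.Agent.L5helper3.Hilb
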