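import Pool.Agent.L5helper3.Hilb.Normal

/-!
# The degree of the norm of a bounded element
-/

set_option autoImplicit false

namespace Pool.Agent.L5helper3.Hilb

open Polynomial WithZero

variable {K : Type*} [Field K] {σ : Type*}

/-- The valuation `exp (deg P)` of polynomials. -/
noncomputable def degVal (K σ : Type*) [Field K] :
    Valuation (MvPolynomial σ K) (WithZero (Multiplicative ℤ)) where
  toFun P := open Classical in if P = 0 then 0 else exp (P.totalDegree : ℤ)
  map_zero' := by simp
  map_one' := by simp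
  map_mul' P Q := by
    classical
    by_cases hP : P = 0
    · simp [hP]
    by_cases hQ : Q = 0
    · simp [hQ]
    rw [if_neg hP, if_neg hQ, if_neg (mul_ne_zero hP hQ), ← exp_add,
      MvPolynomial.totalDegree_mul_of_isDomain hP hQ]
    push_cast
    rfl
  map_add_le_max' P Q := by
    classical
    by_cases hP : P = 0
    · simp [hP]
    by_cases hQ : Q = 0
    · simp [hQ]
    by_cases hPQ : P + Q = 0
    · simp [hPQ]
    rw [if_neg hP, if_neg hQ, if_neg hPQ, le_max_iff, exp_le_exp, exp_le_exp]
    have := MvPolynomial.totalDegree_add P Q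
    rcases le_max_iff.1 this with h | h
    · left; exact_mod_cast h
    · right; exact_mod_cast h

theorem degVal_apply (P : MvPolynomial σ K) (hP : P ≠ 0) :
    degVal K σ P = exp (P.totalDegree : ℤ) := by
  classical
  change (if P = 0 then 0 else exp (P.totalDegree : ℤ)) = _
  rw [if_neg hP]

theorem degVal_le (P : MvPolynomial σ K) (n : ℕ) (h : P.totalDegree ≤ n) :
    degVal K σ P ≤ exp (n : ℤ) := by
  classical
  by_cases hP : P = 0
  · rw [hP, map_zero]; exact zero_le
  · rw [degVal_apply P hP, exp_le_exp]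
    exact_mod_cast h

variable {E F : Type*} [Field E] [Field F] [Algebra (MvPolynomial σ K) E]
  [IsFractionRing (MvPolynomial σ K) E] [Algebra E F] [Algebra (MvPolynomial σ K) F]
  [IsScalarTower (MvPolynomial σ K) E F] [FiniteDimensional E F]

/-- **Norms of bounded elements are polynomials of bounded degree.** -/
theorem norm_degree (f : F) (m : ℕ) (Ψ : (MvPolynomial σ K)[X]) (hΨ : Ψ.Monic)
    (hdeg : ∀ i, (Ψ.coeff i).totalDegree ≤ m * (Ψ.natDegree - i))
    (hf : aeval f Ψ = 0) :
    ∃ P : MvPolynomial σ K, P.totalDegree ≤ m * Module.finrank E F ∧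
      algebraMap (MvPolynomial σ K) E P = Algebra.norm E f := by
  classical
  have hint : IsIntegral (MvPolynomial σ K) f := ⟨Ψ, hΨ, hf⟩
  have hnint : IsIntegral (MvPolynomial σ K) (Algebra.norm E f) := Algebra.isIntegral_norm E hint
  obtain ⟨P, hP⟩ := IsIntegrallyClosed.isIntegral_iff.1 hnint
  refine ⟨P, ?_, hP⟩
  rcases isEmpty_or_nonempty σ with hσ | ⟨⟨i₀⟩⟩
  · rw [MvPolynomial.eq_C_of_isEmpty P, MvPolynomial.totalDegree_C]
    exact Nat.zero_le _
  by_cases hP0 : P = 0
  · rw [hP0]; simp
  let R := MvPolynomial σ K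
  let x : R := MvPolynomial.X i₀
  have hS : nonZeroDivisors R ≤ (degVal K σ).supp.primeCompl := by
    intro Q hQ h
    have h1 : degVal K σ Q = 0 := h
    rw [degVal_apply Q (nonZeroDivisors.ne_zero hQ)] at h1
    exact exp_ne_zero h1
  let v : Valuation E (WithZero (Multiplicative ℤ)) := (degVal K σ).extendToLocalization hS E
  have hv : ∀ Q : R, v (algebraMap R E Q) = degVal K σ Q := fun Q =>
    Valuation.extendToLocalization_apply_map_apply (degVal K σ) hS E Q
  have hx : v (algebraMap R E x) = exp (1 : ℤ) := by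
    rw [hv, degVal_apply x (MvPolynomial.X_ne_zero i₀), MvPolynomial.totalDegree_X]
    rfl
  have hx0 : algebraMap R E x ≠ 0 := by
    intro h
    rw [h, map_zero] at hx
    exact exp_ne_zero hx.symm
  let O := v.valuationSubring
  letI : Algebra O F := ((algebraMap E F).comp (algebraMap O E)).toAlgebra
  haveI : IsScalarTower O E F := IsScalarTower.of_algebraMap_eq fun _ => rfl
  set y : E := (algebraMap R E x)⁻¹ with hy
  have hy0 : y ≠ 0 := inv_ne_zero hx0
  have hvy : v y = exp (-1 : ℤ) := by
    rw [hy, map_inv₀, hx, exp_neg]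
  set g : F := f * algebraMap E F (y ^ m) with hg
  have hcO : ∀ i, v (algebraMap R E (Ψ.coeff i) * y ^ (m * (Ψ.natDegree - i))) ≤ 1 := by
    intro i
    rw [map_mul, map_pow, hvy, hv, ← exp_nsmul]
    refine (mul_le_mul' (degVal_le _ _ (hdeg i)) le_rfl).trans ?_
    rw [← exp_add, ← exp_zero, exp_le_exp]
    simp
  have hgint : IsIntegral O g := by
    set n := Ψ.natDegree with hn
    let c : ℕ → O := fun i => ⟨algebraMap R E (Ψ.coeff i) * y ^ (m * (n - i)), hcO i⟩
    have hc1 : c n = 1 := by
      apply Subtype.ext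
      change algebraMap R E (Ψ.coeff n) * y ^ (m * (n - n)) = 1
      rw [hn, hΨ.coeff_natDegree, map_one, Nat.sub_self, Nat.mul_zero, pow_zero, mul_one]
    let Θ : O[X] := ∑ i ∈ Finset.range (n + 1), C (c i) * X ^ i
    have hΘc : ∀ i, i ≤ n → Θ.coeff i = c i := by
      intro i hi
      simp only [Θ]
      rw [finsetSum_coeff, Finset.sum_eq_single i]
      · simp
      · intro j _ hji
        rw [coeff_C_mul_X_pow, if_neg hji.symm]
      · intro h'
        exact absurd (Finset.mem_range.mpr (Nat.lt_succ_of_le hi)) h'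
    have hΘd : Θ.natDegree ≤ n := by
      refine natDegree_sum_le_of_forall_le _ _ fun i hi => ?_
      exact (natDegree_C_mul_X_pow_le _ _).trans (Nat.lt_succ_iff.mp (Finset.mem_range.mp hi))
    refine ⟨Θ, monic_of_natDegree_le_of_coeff_eq_one n hΘd (by rw [hΘc n le_rfl, hc1]), ?_⟩
    simp only [Θ]
    rw [eval₂_finsetSum]
    have e0 : aeval f Ψ = ∑ i ∈ Finset.range (n + 1), algebraMap R F (Ψ.coeff i) * f ^ i := by
      rw [aeval_eq_sum_range]
      refine Finset.sum_congr rfl fun i _ => ?_
      rw [Algebra.smul_def]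
    have e1 : ∀ i ∈ Finset.range (n + 1), eval₂ (algebraMap O F) g (C (c i) * X ^ i) =
        algebraMap E F (y ^ (m * n)) * (algebraMap R F (Ψ.coeff i) * f ^ i) := by
      intro i hi
      have hi' : i ≤ n := Nat.lt_succ_iff.mp (Finset.mem_range.mp hi)
      rw [eval₂_mul, eval₂_C, eval₂_X_pow]
      change algebraMap E F (algebraMap R E (Ψ.coeff i) * y ^ (m * (n - i))) * _ = _
      have h2 : m * n = m * (n - i) + m * i := by
        rw [← Nat.mul_add, Nat.sub_add_cancel hi']
      rw [map_mul, ← IsScalarTower.algebraMap_apply R E F, hg, mul_pow, h2, pow_add, map_mul,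
        ← map_pow, ← pow_mul]
      ring
    rw [Finset.sum_congr rfl e1, ← Finset.mul_sum, ← e0, hf, mul_zero]
  have hN : IsIntegral O (Algebra.norm E g) := Algebra.isIntegral_norm E hgint
  obtain ⟨z, hz⟩ := IsIntegrallyClosed.isIntegral_iff.1 hN
  have hvN : v (Algebra.norm E g) ≤ 1 := by
    rw [← hz]
    exact z.2
  rw [hg, map_mul, Algebra.norm_algebraMap, map_mul, ← pow_mul, map_pow, hvy, ← hP, hv,
    degVal_apply P hP0, ← exp_nsmul, ← exp_add, ← exp_zero, exp_le_exp] at hvN
  simp only [nsmul_eq_mul, mul_neg, mul_one] at hvN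
  have : (P.totalDegree : ℤ) ≤ ((m * Module.finrank E F : ℕ) : ℤ) := by
    push_cast at hvN ⊢
    linarith
  exact_mod_cast this

end Pool.Agent.L5helper3.Hilb
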