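import Pool.Agent.L5helper3.Hilb.Rees

/-!
# Noether normalization by linear combinations
-/

set_option autoImplicit false

namespace Pool.Agent.L5helper3.Hilb

open Polynomial
open Pool.Agent.W256 (isIntegralElem_trans isIntegralElem_of_unit)

theorem coeff_prod_le {R ι : Type*} [CommRing R] (s : Finset ι) (f : ι → R[X]) (n : ι → ℕ)
    (h : ∀ i ∈ s, (f i).natDegree ≤ n i) :
    (∏ i ∈ s, f i).natDegree ≤ ∑ i ∈ s, n i ∧
      (∏ i ∈ s, f i).coeff (∑ i ∈ s, n i) = ∏ i ∈ s, (f i).coeff (n i) := by
  classical
  induction s using Finset.induction_on with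
  | empty => simp
  | insert i s hi ih =>
    obtain ⟨h1, h2⟩ := ih (fun j hj => h j (Finset.mem_insert_of_mem hj))
    rw [Finset.prod_insert hi, Finset.sum_insert hi, Finset.prod_insert hi]
    have h3 := h i (Finset.mem_insert_self _ _)
    refine ⟨natDegree_mul_le.trans (add_le_add h3 h1), ?_⟩
    rw [coeff_mul_add_eq_of_natDegree_le h3 h1, h2]

variable {K F : Type*} [Field K] [Field F] [Algebra K F]

/-- **Normalisation step.** -/
theorem normal_step {n : ℕ} (w : Fin (n + 1) → F) (P : MvPolynomial (Fin (n + 1)) K)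
    (hP : MvPolynomial.aeval w P = 0) (a : Fin (n + 1) → K) (j₀ : Fin (n + 1)) (hj₀ : a j₀ = 1)
    (ha : MvPolynomial.eval a (MvPolynomial.homogeneousComponent P.totalDegree P) ≠ 0) :
    ∀ j, IntAt K (fun i : Fin n => w (j₀.succAbove i) - a (j₀.succAbove i) • w j₀) (w j) 1 := by
  classical
  set w' : Fin n → F := fun i => w (j₀.succAbove i) - a (j₀.succAbove i) • w j₀ with hw'
  set D := P.totalDegree with hD
  let A := MvPolynomial (Option (Fin n)) K
  let y : Fin (n + 1) → A := j₀.insertNth (0 : A) (fun i => MvPolynomial.X (some i))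
  have hy : ∀ j, rees K w' (y j) = C (w j - a j • w j₀) * X := by
    intro j
    rcases Fin.eq_self_or_eq_succAbove j₀ j with rfl | ⟨i, rfl⟩
    · simp only [y, Fin.insertNth_apply_same, map_zero, hj₀, one_smul, sub_self, zero_mul]
    · simp only [y, Fin.insertNth_apply_succAbove]
      rw [rees_some]
  have hdeg : ∀ s ∈ P.support, (∑ j, s j) ≤ D := by
    intro s hs
    have := MvPolynomial.le_totalDegree hs
    rwa [Finsupp.sum_fintype _ _ (fun _ => rfl)] at this
  let lin : Fin (n + 1) → A[X] := fun j => C (y j) + C (MvPolynomial.C (a j)) * X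
  have hlin : ∀ j, (lin j).natDegree ≤ 1 := by
    intro j
    refine (natDegree_add_le _ _).trans ?_
    rw [natDegree_C]
    simp only [zero_le, sup_of_le_right]
    exact (natDegree_C_mul_le _ _).trans natDegree_X_le
  have hlinc : ∀ j, (lin j).coeff 1 = MvPolynomial.C (a j) := by
    intro j
    simp only [lin, coeff_add, coeff_C_mul, coeff_X_one, mul_one, coeff_C_succ, zero_add]
  have hpr : ∀ s : Fin (n + 1) →₀ ℕ, (∏ j, lin j ^ s j).natDegree ≤ ∑ j, s j ∧
      (∏ j, lin j ^ s j).coeff (∑ j, s j) = ∏ j, MvPolynomial.C (a j) ^ s j := by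
    intro s
    have h1 : ∀ j, (lin j ^ s j).natDegree ≤ s j := fun j =>
      natDegree_pow_le.trans ((Nat.mul_le_mul_left _ (hlin j)).trans (mul_one _).le)
    obtain ⟨h2, h3⟩ := coeff_prod_le Finset.univ (fun j => lin j ^ s j) (fun j => s j)
      (fun j _ => h1 j)
    refine ⟨h2, ?_⟩
    rw [h3]
    refine Finset.prod_congr rfl fun j _ => ?_
    have := coeff_pow_of_natDegree_le (m := s j) (hlin j)
    rwa [mul_one, hlinc] at this
  let p : A[X] := ∑ s ∈ P.support,
    C (MvPolynomial.C (P.coeff s) * MvPolynomial.X none ^ (D - ∑ j, s j)) * ∏ j, lin j ^ s j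
  have hpD : p.natDegree ≤ D := by
    refine natDegree_sum_le_of_forall_le _ _ fun s hs => ?_
    exact (natDegree_C_mul_le _ _).trans ((hpr s).1.trans (hdeg s hs))
  have hcoef : p.coeff D = MvPolynomial.C
      (MvPolynomial.eval a (MvPolynomial.homogeneousComponent D P)) := by
    have e1 : p.coeff D = ∑ s ∈ P.support, if (∑ j, s j) = D then
        MvPolynomial.C (P.coeff s * ∏ j, a j ^ s j) else 0 := by
      simp only [p]
      rw [finsetSum_coeff]
      refine Finset.sum_congr rfl fun s hs => ?_
      split_ifs with hsD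
      · rw [hsD, Nat.sub_self, pow_zero, mul_one, coeff_C_mul, ← hsD, (hpr s).2]
        rw [MvPolynomial.C_mul, map_prod]
        congr 1
        refine Finset.prod_congr rfl fun j _ => ?_
        rw [map_pow]
      · apply coeff_eq_zero_of_natDegree_lt
        have h4 := hdeg s hs
        have h5 := (natDegree_C_mul_le
          (MvPolynomial.C (P.coeff s) * MvPolynomial.X none ^ (D - ∑ j, s j) : A)
          (∏ j, lin j ^ s j)).trans (hpr s).1
        omega
    rw [e1, ← Finset.sum_filter, MvPolynomial.homogeneousComponent_apply, map_sum, map_sum]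
    rw [Finset.sum_filter, Finset.sum_filter]
    refine Finset.sum_congr rfl fun s _ => ?_
    have e2 : s.degree = ∑ j, s j := Finsupp.degree_eq_sum s
    rw [e2]
    split_ifs with h
    · rw [MvPolynomial.eval_monomial, Finsupp.prod_fintype _ _ (fun _ => pow_zero _)]
    · rfl
  have hj : IntAt K w' (w j₀) 1 := by
    rw [IntAt, pow_one]
    refine isIntegralElem_of_unit (rees K w') _ p D hpD
      (MvPolynomial.C (MvPolynomial.eval a (MvPolynomial.homogeneousComponent D P))⁻¹) ?_ ?_
    · rw [hcoef, ← MvPolynomial.C_mul, inv_mul_cancel₀ ha, MvPolynomial.C_1]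
    · simp only [p]
      rw [eval₂_finsetSum]
      have e3 : ∀ s ∈ P.support, eval₂ (rees K w') (C (w j₀) * X)
          (C (MvPolynomial.C (P.coeff s) * MvPolynomial.X none ^ (D - ∑ j, s j)) *
            ∏ j, lin j ^ s j) =
          X ^ D * C (algebraMap K F (P.coeff s) * ∏ j, w j ^ s j) := by
        intro s hs
        rw [eval₂_mul, eval₂_C, eval₂_finsetProd, map_mul, map_pow, rees_none, rees_C]
        have e4 : ∀ j, eval₂ (rees K w') (C (w j₀) * X) (lin j ^ s j) = C (w j ^ s j) * X ^ s j := by
          intro j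
          rw [eval₂_pow, eval₂_add, eval₂_C, eval₂_mul, eval₂_C, eval₂_X, hy, rees_C, C_pow,
            ← mul_pow]
          congr 1
          rw [Algebra.smul_def, C_sub, C_mul]
          ring
        rw [Finset.prod_congr rfl (fun j _ => e4 j), Finset.prod_mul_distrib,
          Finset.prod_pow_eq_pow_sum, ← map_prod, C_mul]
        have e5 : (X : F[X]) ^ D = X ^ (D - ∑ j, s j) * X ^ (∑ j, s j) := by
          rw [← pow_add]
          congr 1
          have := hdeg s hs
          omega
        rw [e5]
        ring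
      rw [Finset.sum_congr rfl e3, ← Finset.mul_sum, ← map_sum]
      have e6 : ∑ s ∈ P.support, algebraMap K F (P.coeff s) * ∏ j, w j ^ s j = 0 := by
        rw [← hP, MvPolynomial.aeval_def, MvPolynomial.eval₂_eq']
      rw [e6, C_0, mul_zero]
  intro j
  rcases Fin.eq_self_or_eq_succAbove j₀ j with rfl | ⟨i, rfl⟩
  · exact hj
  · have h1 := (IntAt.self (K := K) w' i).add (hj.smul (a (j₀.succAbove i)))
    have h2 : w' i + a (j₀.succAbove i) • w j₀ = w (j₀.succAbove i) := by
      simp only [hw']
      ring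
    rwa [h2] at h1

theorem eval_smul_hom {R σ : Type*} [CommRing R] [Fintype σ] {Q : MvPolynomial σ R} {D : ℕ}
    (hQ : Q.IsHomogeneous D) (c : R) (b : σ → R) :
    MvPolynomial.eval (fun i => c * b i) Q = c ^ D * MvPolynomial.eval b Q := by
  rw [MvPolynomial.eval_eq', MvPolynomial.eval_eq', Finset.mul_sum]
  refine Finset.sum_congr rfl fun s hs => ?_
  have h1 : s.degree = D := by
    have := hQ (MvPolynomial.mem_support_iff.mp hs)
    rw [Finsupp.degree_eq_weight_one (R := ℕ)]
    exact this
  rw [Finsupp.degree_eq_sum] at h1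
  simp only [mul_pow]
  rw [Finset.prod_mul_distrib, Finset.prod_pow_eq_pow_sum, h1]
  ring

/-- **Noether normalization.** -/
theorem exists_normal [Infinite K] (n : ℕ) (w : Fin n → F) :
    ∃ (t : ℕ) (u : Fin t → F), (∀ i, u i ∈ Submodule.span K (Set.range w)) ∧
      AlgebraicIndependent K u ∧ ∀ j, IntAt K u (w j) 1 := by
  classical
  induction n with
  | zero =>
    refine ⟨0, w, fun i => i.elim0, ?_, fun j => j.elim0⟩
    rw [algebraicIndependent_iff]
    intro p hp
    rw [MvPolynomial.eq_C_of_isEmpty p] at hp ⊢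
    rw [MvPolynomial.aeval_C] at hp
    rw [(map_eq_zero _).1 hp, map_zero]
  | succ n ih =>
    by_cases hind : AlgebraicIndependent K w
    · exact ⟨n + 1, w, fun i => Submodule.subset_span ⟨i, rfl⟩, hind, fun j => IntAt.self w j⟩
    rw [algebraicIndependent_iff] at hind
    push Not at hind
    obtain ⟨P, hP, hP0⟩ := hind
    set D := P.totalDegree with hD
    have hD0 : D ≠ 0 := by
      intro h0
      have h1 := MvPolynomial.totalDegree_eq_zero_iff_eq_C.mp (hD.symm.trans h0)
      rw [h1, MvPolynomial.aeval_C] at hP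
      apply hP0
      rw [h1, (map_eq_zero _).1 hP, map_zero]
    have htop : MvPolynomial.homogeneousComponent D P ≠ 0 := by
      obtain ⟨s₀, hs₀, h1⟩ := Finset.exists_mem_eq_sup P.support
        (MvPolynomial.support_nonempty.mpr hP0) (fun s => s.sum fun _ e => e)
      intro h0
      have h2 := congrArg (MvPolynomial.coeff s₀) h0
      rw [MvPolynomial.coeff_homogeneousComponent, if_pos, MvPolynomial.coeff_zero] at h2
      · exact (MvPolynomial.mem_support_iff.mp hs₀) h2
      · rw [hD, MvPolynomial.totalDegree, h1]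
        rfl
    obtain ⟨b, hb⟩ : ∃ b : Fin (n + 1) → K,
        MvPolynomial.eval b (MvPolynomial.homogeneousComponent D P) ≠ 0 := by
      by_contra hcon
      push Not at hcon
      apply htop
      apply MvPolynomial.funext
      intro b
      rw [hcon b, map_zero]
    have hhom := MvPolynomial.homogeneousComponent_isHomogeneous D P
    obtain ⟨j₀, hj₀⟩ : ∃ j₀, b j₀ ≠ 0 := by
      by_contra hcon
      push Not at hcon
      apply hb
      have h1 : b = fun i => (0 : K) * b i := by
        funext i
        rw [zero_mul]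
        exact hcon i
      rw [h1, eval_smul_hom hhom, zero_pow hD0, zero_mul]
    set a : Fin (n + 1) → K := fun i => (b j₀)⁻¹ * b i with ha
    have ha1 : a j₀ = 1 := inv_mul_cancel₀ hj₀
    have ha2 : MvPolynomial.eval a (MvPolynomial.homogeneousComponent D P) ≠ 0 := by
      rw [ha, eval_smul_hom hhom]
      exact mul_ne_zero (pow_ne_zero _ (inv_ne_zero hj₀)) hb
    have hstep := normal_step w P hP a j₀ ha1 ha2
    obtain ⟨t, u, hu1, hu2, hu3⟩ := ih (fun i => w (j₀.succAbove i) - a (j₀.succAbove i) • w j₀)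
    refine ⟨t, u, fun i => ?_, hu2, fun j => IntAt.trans hu3 (hstep j)⟩
    refine Submodule.span_le.mpr ?_ (hu1 i)
    rintro _ ⟨k, rfl⟩
    exact Submodule.sub_mem _ (Submodule.subset_span ⟨_, rfl⟩)
      (Submodule.smul_mem _ _ (Submodule.subset_span ⟨_, rfl⟩))

end Pool.Agent.L5helper3.Hilb
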