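import Pool.Agent.W256.Curve6

/-!
# Elements bounded by a family of elements, homogeneous form
-/

set_option autoImplicit false

namespace Pool.Agent.L5helper3.Hilb

open Polynomial
open Pool.Agent.W256 (isIntegralElem_trans isIntegralElem_of_unit)

variable {K F : Type*} [Field K] [Field F] [Algebra K F] {σ τ : Type*}

/-- the homomorphism `X_none ↦ X`, `X_i ↦ u_i X` -/
noncomputable def rees (K : Type*) {F : Type*} [Field K] [Field F] [Algebra K F] {σ : Type*}
    (u : σ → F) : MvPolynomial (Option σ) K →+* F[X] :=
  (MvPolynomial.aeval (fun o : Option σ => o.elim X (fun i => C (u i) * X)) :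
    MvPolynomial (Option σ) K →ₐ[K] F[X]).toRingHom

theorem rees_none (u : σ → F) : rees K u (MvPolynomial.X none) = X := by
  simp [rees]

theorem rees_some (u : σ → F) (i : σ) : rees K u (MvPolynomial.X (some i)) = C (u i) * X := by
  simp [rees]

theorem rees_C (u : σ → F) (a : K) : rees K u (MvPolynomial.C a) = C (algebraMap K F a) := by
  simp [rees]

/-- `h` has poles at most `m` times those of `u` -/
def IntAt (K : Type*) {F : Type*} [Field K] [Field F] [Algebra K F] {σ : Type*} (u : σ → F)
    (h : F) (m : ℕ) : Prop :=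
  (rees K u).IsIntegralElem (C h * X ^ m)

theorem IntAt.self (u : σ → F) (i : σ) : IntAt K u (u i) 1 := by
  have := (rees K u).isIntegralElem_map (x := MvPolynomial.X (some i))
  rw [rees_some] at this
  rwa [IntAt, pow_one]

theorem IntAt.const (u : σ → F) (a : K) (m : ℕ) : IntAt K u (algebraMap K F a) m := by
  have := (rees K u).isIntegralElem_map (x := MvPolynomial.C a * MvPolynomial.X none ^ m)
  rwa [map_mul, map_pow, rees_none, rees_C] at this

theorem IntAt.add {u : σ → F} {h h' : F} {m : ℕ} (H : IntAt K u h m) (H' : IntAt K u h' m) :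
    IntAt K u (h + h') m := by
  have := RingHom.IsIntegralElem.add _ H H'
  rwa [← add_mul, ← C_add] at this

theorem IntAt.mul {u : σ → F} {h h' : F} {m m' : ℕ} (H : IntAt K u h m)
    (H' : IntAt K u h' m') : IntAt K u (h * h') (m + m') := by
  have := RingHom.IsIntegralElem.mul _ H H'
  rwa [mul_mul_mul_comm, ← C_mul, ← pow_add] at this

theorem IntAt.smul {u : σ → F} {h : F} {m : ℕ} (a : K) (H : IntAt K u h m) :
    IntAt K u (a • h) m := by
  have := (IntAt.const u a 0).mul H
  rwa [zero_add, ← Algebra.smul_def] at this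

/-- the space of elements with poles at most `m` times those of `u` -/
def intSub (K : Type*) {F : Type*} [Field K] [Field F] [Algebra K F] {σ : Type*} (u : σ → F)
    (m : ℕ) : Submodule K F where
  carrier := {h | IntAt K u h m}
  add_mem' := IntAt.add
  zero_mem' := by
    have := IntAt.const (K := K) u 0 m
    rwa [map_zero] at this
  smul_mem' := fun a _ h => IntAt.smul a h

theorem mem_intSub {u : σ → F} {h : F} {m : ℕ} : h ∈ intSub K u m ↔ IntAt K u h m := Iff.rfl

theorem intSub_mul (u : σ → F) (m m' : ℕ) :
    intSub K u m * intSub K u m' ≤ intSub K u (m + m') := by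
  rw [Submodule.mul_le]
  intro h hh h' hh'
  exact hh.mul hh'

theorem pow_le_intSub {u : σ → F} {V : Submodule K F} (hV : V ≤ intSub K u 1) (m : ℕ) :
    V ^ m ≤ intSub K u m := by
  induction m with
  | zero =>
    rw [pow_zero, Submodule.one_le]
    have := IntAt.const (K := K) u 1 0
    rwa [map_one] at this
  | succ m ih =>
    rw [pow_succ]
    exact (mul_le_mul' ih hV).trans (intSub_mul u m 1)

theorem IntAt.trans {w : τ → F} {u : σ → F} {f : F} {m : ℕ} (h1 : ∀ i, IntAt K w (u i) 1)
    (h2 : IntAt K u f m) : IntAt K w f m := by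
  refine isIntegralElem_trans (rees K w) (rees K u) ?_ _ h2
  intro a
  induction a using MvPolynomial.induction_on with
  | C a =>
    rw [rees_C, ← rees_C w a]
    exact (rees K w).isIntegralElem_map
  | add p q hp hq => rw [map_add]; exact hp.add _ hq
  | mul_X p i hp =>
    rw [map_mul]
    refine hp.mul _ ?_
    cases i with
    | none =>
      rw [rees_none, ← rees_none (K := K) w]
      exact (rees K w).isIntegralElem_map
    | some i =>
      rw [rees_some]
      have := h1 i
      rw [IntAt, pow_one] at this
      exact this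

/-- coefficients of the elements of the Rees ring -/
theorem coeff_rees (u : σ → F) (P : MvPolynomial (Option σ) K) (s : ℕ) :
    ∃ Q : MvPolynomial σ K, Q.totalDegree ≤ s ∧
      (rees K u P).coeff s = MvPolynomial.aeval u Q := by
  classical
  induction P using MvPolynomial.induction_on generalizing s with
  | C a =>
    by_cases hs : s = 0
    · subst hs
      exact ⟨MvPolynomial.C a, by simp, by simp [rees_C]⟩
    · exact ⟨0, by simp, by rw [rees_C, coeff_C, if_neg hs, map_zero]⟩
  | add p q hp hq =>
    obtain ⟨Q1, h1, h1'⟩ := hp s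
    obtain ⟨Q2, h2, h2'⟩ := hq s
    refine ⟨Q1 + Q2, (MvPolynomial.totalDegree_add _ _).trans (max_le h1 h2), ?_⟩
    rw [map_add, coeff_add, h1', h2', map_add]
  | mul_X p i hp =>
    rw [map_mul]
    cases s with
    | zero =>
      refine ⟨0, by simp, ?_⟩
      rw [map_zero]
      cases i with
      | none => rw [rees_none, mul_coeff_zero, coeff_X_zero, mul_zero]
      | some i => rw [rees_some, mul_coeff_zero, mul_coeff_zero, coeff_X_zero, mul_zero, mul_zero]
    | succ s =>
      obtain ⟨Q, hQ, hQ'⟩ := hp s
      cases i with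
      | none =>
        refine ⟨Q, hQ.trans (Nat.le_succ s), ?_⟩
        rw [rees_none, coeff_mul_X, hQ']
      | some i =>
        refine ⟨Q * MvPolynomial.X i, ?_, ?_⟩
        · refine (MvPolynomial.totalDegree_mul _ _).trans ?_
          exact add_le_add hQ (MvPolynomial.totalDegree_X i).le
        · rw [rees_some, ← mul_assoc, coeff_mul_X, coeff_mul_C, hQ', map_mul,
            MvPolynomial.aeval_X]

/-- a homogeneous equation -/
theorem IntAt.exists_eq {u : σ → F} {f : F} {m : ℕ} (H : IntAt K u f m) :
    ∃ Ψ : (MvPolynomial σ K)[X], Ψ.Monic ∧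
      (∀ i, (Ψ.coeff i).totalDegree ≤ m * (Ψ.natDegree - i)) ∧
      Ψ.eval₂ (MvPolynomial.aeval u : MvPolynomial σ K →ₐ[K] F).toRingHom f = 0 := by
  classical
  obtain ⟨p, hp, hx⟩ := H
  set n := p.natDegree with hn
  choose Q hQ hQ' using fun (i : ℕ) => coeff_rees u (p.coeff i) (m * (n - i))
  set Ψ : (MvPolynomial σ K)[X] := X ^ n + ∑ i ∈ Finset.range n, C (Q i) * X ^ i with hΨ
  have hlt : (∑ i ∈ Finset.range n, C (Q i) * X ^ i : (MvPolynomial σ K)[X]).degree < n := by
    refine mem_degreeLT.mp (Submodule.sum_mem _ fun i hi => mem_degreeLT.mpr ?_)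
    refine (degree_C_mul_X_pow_le _ _).trans_lt ?_
    exact_mod_cast Finset.mem_range.mp hi
  have hmon : Ψ.Monic := monic_X_pow_add hlt
  have hdeg : Ψ.natDegree = n := by
    rw [hΨ]
    refine natDegree_eq_of_degree_eq_some ?_
    rw [degree_add_eq_left_of_degree_lt (by rw [degree_X_pow]; exact hlt), degree_X_pow]
  refine ⟨Ψ, hmon, ?_, ?_⟩
  · intro i
    rw [hdeg]
    rcases lt_trichotomy i n with h | h | h
    · have : Ψ.coeff i = Q i := by
        rw [hΨ, coeff_add, coeff_X_pow, if_neg h.ne, zero_add, finsetSum_coeff]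
        rw [Finset.sum_eq_single i]
        · simp
        · intro j _ hji
          rw [coeff_C_mul_X_pow, if_neg hji.symm]
        · intro h'
          exact absurd (Finset.mem_range.mpr h) h'
      rw [this]
      exact hQ i
    · subst h
      have : Ψ.coeff n = 1 := by
        have := hmon.coeff_natDegree
        rwa [hdeg] at this
      rw [this]
      simp
    · rw [coeff_eq_zero_of_natDegree_lt (by rw [hdeg]; exact h)]
      simp
  · have h1 := congrArg (fun q => coeff q (m * n)) hx
    simp only [coeff_zero] at h1
    rw [eval₂_eq_sum_range, finsetSum_coeff, Finset.sum_range_succ] at h1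
    have h2 : p.coeff p.natDegree = 1 := hp
    have e1 : ∀ i, i ≤ n → ((rees K u) (p.coeff i) * (C f * X ^ m) ^ i).coeff (m * n) =
        (rees K u (p.coeff i)).coeff (m * (n - i)) * f ^ i := by
      intro i hi
      have : m * n = m * (n - i) + m * i := by
        rw [← Nat.mul_add, Nat.sub_add_cancel hi]
      rw [mul_pow, ← pow_mul, ← mul_assoc, this, coeff_mul_X_pow, ← C_pow, coeff_mul_C]
    rw [eval₂_eq_sum_range, hdeg, Finset.sum_range_succ]
    rw [← h1]
    congr 1
    · refine Finset.sum_congr rfl fun i hi => ?_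
      have hi' := Finset.mem_range.mp hi
      have : Ψ.coeff i = Q i := by
        rw [hΨ, coeff_add, coeff_X_pow, if_neg hi'.ne, zero_add, finsetSum_coeff]
        rw [Finset.sum_eq_single i]
        · simp
        · intro j _ hji
          rw [coeff_C_mul_X_pow, if_neg hji.symm]
        · intro h'
          exact absurd hi h'
      rw [e1 i hi'.le, this, hQ']
      rfl
    · have : Ψ.coeff n = 1 := by
        have := hmon.coeff_natDegree
        rwa [hdeg] at this
      rw [this, ← hn, e1 n le_rfl, hn, h2, map_one, map_one, Nat.sub_self, Nat.mul_zero,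
        coeff_one_zero]

end Pool.Agent.L5helper3.Hilb
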