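import Pool.Agent.L5helper3.Hilb.Jets

/-!
# Upper bound for the Hilbert function: the theorem
-/

set_option autoImplicit false

namespace Pool.Agent.L5helper3.Hilb

open Polynomial
open Pool.Agent.L5helper3.FewForms (ex exists_ex ex_degree)
open Pool.Agent.W256 (exists_point)

variable {K : Type*} [Field K] {t : ℕ}

/-- coefficients of the jets -/
noncomputable def jet (a : Fin t → K) (k : ℕ) (s : Sym (Fin t) k) :
    MvPolynomial (Fin t) K →ₗ[K] K where
  toFun P := ((th a P).coeff k).coeff (ex s)
  map_add' P Q := by rw [map_add, coeff_add, MvPolynomial.coeff_add]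
  map_smul' r P := by
    rw [map_smul, coeff_smul, MvPolynomial.coeff_smul, RingHom.id_apply]

theorem jet_apply (a : Fin t → K) (k : ℕ) (s : Sym (Fin t) k) (P : MvPolynomial (Fin t) K) :
    jet a k s P = ((th a P).coeff k).coeff (ex s) := rfl

/-- **The linear algebra.** -/
theorem finrank_le_jets [IsAlgClosed K] {E F : Type*} [Field E] [Field F]
    [Algebra (MvPolynomial (Fin t) K) E] [IsFractionRing (MvPolynomial (Fin t) K) E] [Algebra E F]
    [Algebra (MvPolynomial (Fin t) K) F] [IsScalarTower (MvPolynomial (Fin t) K) E F]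
    [FiniteDimensional E F] [Algebra K F] [Algebra K E]
    [IsScalarTower K (MvPolynomial (Fin t) K) E] [IsScalarTower K E F]
    [IsScalarTower K (MvPolynomial (Fin t) K) F]
    (W : Submodule K F) [FiniteDimensional K W] (m : ℕ)
    (hW : ∀ f ∈ W, ∃ P : MvPolynomial (Fin t) K, P.totalDegree ≤ m * Module.finrank E F ∧
      algebraMap (MvPolynomial (Fin t) K) E P = Algebra.norm E f) :
    Module.finrank K W ≤ Module.finrank E F *
      (∑ k ∈ Finset.range m, Fintype.card (Sym (Fin t) k)) + Fintype.card (Sym (Fin t) m) := by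
  classical
  by_contra hcon
  push Not at hcon
  let R := MvPolynomial (Fin t) K
  set d := Module.finrank E F with hd
  let b := Module.finBasis E F
  set h := Module.finrank K W with hh
  let bW := Module.finBasis K W
  let fam : (Fin d × Fin d × Fin d) ⊕ (Fin d ⊕ (Fin h × Fin d)) → E :=
    Sum.elim (fun p => b.repr (b p.1 * b p.2.1) p.2.2)
      (Sum.elim (fun l => b.repr 1 l) (fun p => b.repr (bW p.1 : F) p.2))
  obtain ⟨⟨G, hG⟩, hGi⟩ := IsLocalization.exist_integer_multiples_of_finite (nonZeroDivisors R) fam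
  choose z hz using hGi
  have hz' : ∀ q, algebraMap R E (z q) = algebraMap R E G * fam q := by
    intro q
    rw [hz q]
    exact Algebra.smul_def _ _
  have hG0 : G ≠ 0 := nonZeroDivisors.ne_zero hG
  have hinjE : Function.Injective (algebraMap R E) := IsFractionRing.injective R E
  have hRF : ∀ P : R, algebraMap R F P = algebraMap E F (algebraMap R E P) :=
    fun P => IsScalarTower.algebraMap_apply R E F P
  have hinjF : Function.Injective (algebraMap R F) := by
    intro P Q hPQ
    rw [hRF, hRF] at hPQ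
    exact hinjE ((algebraMap E F).injective hPQ)
  have key : ∀ (y : F) (c : Fin d → R), (∀ l, algebraMap R E (c l) = algebraMap R E G * b.repr y l) →
      algebraMap R F G * y = ∑ l, algebraMap R F (c l) * b l := by
    intro y c hc
    conv_lhs => rw [← b.sum_repr y]
    rw [Finset.mul_sum]
    refine Finset.sum_congr rfl fun l _ => ?_
    rw [hRF (c l), hc l, map_mul, ← hRF G, Algebra.smul_def]
    ring
  -- the point
  let A : Subalgebra K F :=
    Algebra.adjoin K (Set.range (fun i => algebraMap R F (MvPolynomial.X i)) ∪ Set.range b)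
  have hAfg : A.FG := by
    refine ⟨Finset.univ.image (fun i => algebraMap R F (MvPolynomial.X i)) ∪
      Finset.univ.image b, ?_⟩
    simp only [A, Finset.coe_union, Finset.coe_image, Finset.coe_univ, Set.image_univ]
  have hft : Algebra.FiniteType K A := A.fg_iff_finiteType.mp hAfg
  have hXA : ∀ i, algebraMap R F (MvPolynomial.X i) ∈ A := fun i =>
    Algebra.subset_adjoin (Or.inl ⟨i, rfl⟩)
  have hbA : ∀ i, b i ∈ A := fun i => Algebra.subset_adjoin (Or.inr ⟨i, rfl⟩)
  have hCF : ∀ c : K, algebraMap R F (MvPolynomial.C c) = algebraMap K F c := by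
    intro c
    rw [IsScalarTower.algebraMap_apply K R F]
    rfl
  have hRA : ∀ P : R, algebraMap R F P ∈ A := by
    intro P
    induction P using MvPolynomial.induction_on with
    | C c => rw [hCF]; exact A.algebraMap_mem c
    | add p q hp hq => rw [map_add]; exact A.add_mem hp hq
    | mul_X p i hp => rw [map_mul]; exact A.mul_mem hp (hXA i)
  obtain ⟨φ, hφG⟩ := exists_point (K := K) (A := A) ⟨algebraMap R F G, hRA G⟩ (by
    intro h0
    have h1 : algebraMap R F G = 0 := congrArg Subtype.val h0
    exact hG0 (hinjF (by rw [h1, map_zero])))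
  let a : Fin t → K := fun i => φ ⟨algebraMap R F (MvPolynomial.X i), hXA i⟩
  have hφ : ∀ P : R, φ ⟨algebraMap R F P, hRA P⟩ = MvPolynomial.eval a P := by
    intro P
    induction P using MvPolynomial.induction_on with
    | C c =>
      rw [MvPolynomial.eval_C]
      have : (⟨algebraMap R F (MvPolynomial.C c), hRA _⟩ : A) = algebraMap K A c :=
        Subtype.ext (hCF c)
      rw [this]
      exact φ.commutes c
    | add p q hp hq =>
      have : (⟨algebraMap R F (p + q), hRA _⟩ : A) =
          ⟨algebraMap R F p, hRA p⟩ + ⟨algebraMap R F q, hRA q⟩ := Subtype.ext (map_add _ _ _)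
      rw [this, map_add, hp, hq, map_add]
    | mul_X p i hp =>
      have : (⟨algebraMap R F (p * MvPolynomial.X i), hRA _⟩ : A) =
          ⟨algebraMap R F p, hRA p⟩ * ⟨algebraMap R F (MvPolynomial.X i), hXA i⟩ :=
        Subtype.ext (map_mul _ _ _)
      rw [this, map_mul, hp, map_mul, MvPolynomial.eval_X]
  let φb : Fin d → K := fun i => φ ⟨b i, hbA i⟩
  have keyφ : ∀ (y : F) (hy : y ∈ A) (c : Fin d → R),
      (∀ l, algebraMap R E (c l) = algebraMap R E G * b.repr y l) →
      MvPolynomial.eval a G * φ ⟨y, hy⟩ = ∑ l, MvPolynomial.eval a (c l) * φb l := by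
    intro y hy c hc
    have h1 : (⟨algebraMap R F G, hRA G⟩ * ⟨y, hy⟩ : A) =
        ∑ l, (⟨algebraMap R F (c l), hRA (c l)⟩ : A) * ⟨b l, hbA l⟩ := by
      apply Subtype.ext
      have := key y c hc
      rw [AddSubmonoidClass.coe_finsetSum]
      exact this
    have h2 := congrArg φ h1
    rw [map_mul, hφ, map_sum] at h2
    rw [h2]
    refine Finset.sum_congr rfl fun l _ => ?_
    rw [map_mul, hφ]
  have hGa : MvPolynomial.eval a G ≠ 0 := by
    rw [← hφ]; exact hφG
  have rel1 : ∀ i j, MvPolynomial.eval a G * (φb i * φb j) =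
      ∑ l, MvPolynomial.eval a (z (Sum.inl (i, j, l))) * φb l := by
    intro i j
    have h1 := keyφ (b i * b j) (A.mul_mem (hbA i) (hbA j)) (fun l => z (Sum.inl (i, j, l)))
      (fun l => hz' _)
    rw [← h1]
    congr 1
    have : (⟨b i * b j, A.mul_mem (hbA i) (hbA j)⟩ : A) = ⟨b i, hbA i⟩ * ⟨b j, hbA j⟩ := rfl
    rw [this, map_mul]
  obtain ⟨l₀, hl₀⟩ : ∃ l, φb l ≠ 0 := by
    by_contra hcon2
    push Not at hcon2
    have h1 := keyφ 1 A.one_mem (fun l => z (Sum.inr (Sum.inl l))) (fun l => hz' _)
    have h2 : (⟨1, A.one_mem⟩ : A) = 1 := rfl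
    rw [h2, map_one, mul_one] at h1
    apply hGa
    rw [h1]
    refine Finset.sum_eq_zero fun l _ => ?_
    rw [hcon2 l, mul_zero]
  -- coordinates
  let c : W →ₗ[K] (Fin d → R) := bW.constr K (fun k l => z (Sum.inr (Sum.inr (k, l))))
  have hc : ∀ (f : W) (l : Fin d), algebraMap R E (c f l) = algebraMap R E G * b.repr (f : F) l := by
    intro f l
    let L1 : W →ₗ[K] E := (IsScalarTower.toAlgHom K R E).toLinearMap ∘ₗ (LinearMap.proj l) ∘ₗ c
    let L2 : W →ₗ[K] E := (LinearMap.mulLeft K (algebraMap R E G)) ∘ₗ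
      ((b.coord l).restrictScalars K) ∘ₗ W.subtype
    have h1 : L1 = L2 := by
      apply bW.ext
      intro k
      change algebraMap R E (c (bW k) l) = algebraMap R E G * b.repr (bW k : F) l
      have : c (bW k) = fun l => z (Sum.inr (Sum.inr (k, l))) := bW.constr_basis K _ k
      rw [this]
      exact hz' _
    exact LinearMap.congr_fun h1 f
  let L : W →ₗ[K] (((Fin d × (Σ k : Fin m, Sym (Fin t) k)) ⊕ Sym (Fin t) m) → K) :=
    LinearMap.pi (Sum.elim
      (fun q => (jet a q.2.1 q.2.2) ∘ₗ (LinearMap.proj q.1) ∘ₗ c)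
      (fun s => ∑ l, φb l • ((jet a m s) ∘ₗ (LinearMap.proj l) ∘ₗ c)))
  have hker : LinearMap.ker L ≠ ⊥ := by
    apply LinearMap.ker_ne_bot_of_finrank_lt
    rw [Module.finrank_fintype_fun_eq_card, Fintype.card_sum, Fintype.card_prod, Fintype.card_fin,
      Fintype.card_sigma, Fin.sum_univ_eq_sum_range (fun k => Fintype.card (Sym (Fin t) k)) m]
    exact hcon
  obtain ⟨f, hf, hf0⟩ := (Submodule.ne_bot_iff _).1 hker
  have hLf : ∀ q, L f q = 0 := fun q => congrFun hf q
  have hv1 : ∀ l, ∀ k < m, (th a (c f l)).coeff k = 0 := by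
    intro l k hk
    apply hom_eq_zero (th_homogeneous a _ k)
    intro s
    exact hLf (Sum.inl (l, ⟨⟨k, hk⟩, s⟩))
  have hv2 : ∑ l, MvPolynomial.C (φb l) * (th a (c f l)).coeff m = 0 := by
    apply hom_eq_zero (k := m)
    · apply MvPolynomial.IsHomogeneous.sum
      intro l _
      have := (MvPolynomial.isHomogeneous_C (Fin t) (φb l)).mul (th_homogeneous a (c f l) m)
      rwa [zero_add] at this
    · intro s
      have h1 := hLf (Sum.inr s)
      have h2 : L f (Sum.inr s) = ∑ l, φb l * ((th a (c f l)).coeff m).coeff (ex s) := by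
        simp only [L, LinearMap.pi_apply, Sum.elim_inr, LinearMap.sum_apply, LinearMap.smul_apply,
          LinearMap.comp_apply, LinearMap.proj_apply, jet_apply, smul_eq_mul]
      rw [h2] at h1
      rw [MvPolynomial.coeff_sum, ← h1]
      refine Finset.sum_congr rfl fun l _ => ?_
      rw [MvPolynomial.coeff_C_mul]
  have hdvd : ∀ l, (X : R[X]) ^ m ∣ th a (c f l) := fun l => X_pow_dvd_iff.2 (hv1 l)
  choose ct hct using hdvd
  have hct0 : ∀ l, (ct l).coeff 0 = (th a (c f l)).coeff m := by
    intro l
    rw [hct l]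
    have := coeff_X_pow_mul (ct l) m 0
    rw [zero_add] at this
    exact this.symm
  -- the matrices
  let M : Matrix (Fin d) (Fin d) R := fun l j => ∑ i, c f i * z (Sum.inl (i, j, l))
  set x : F := algebraMap R F (G * G) * (f : F) with hx
  have hxb : ∀ j, x * b j = ∑ l, algebraMap R E (M l j) • b l := by
    intro j
    have h1 := key (f : F) (c f) (hc f)
    have h2 : x * b j = algebraMap R F G * ((algebraMap R F G * f) * b j) := by
      rw [hx, map_mul]; ring
    rw [h2, h1, Finset.sum_mul, Finset.mul_sum]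
    have h3 : ∀ i, algebraMap R F G * (algebraMap R F (c f i) * b i * b j) =
        ∑ l, algebraMap R F (c f i * z (Sum.inl (i, j, l))) * b l := by
      intro i
      have h4 := key (b i * b j) (fun l => z (Sum.inl (i, j, l))) (fun l => hz' _)
      calc algebraMap R F G * (algebraMap R F (c f i) * b i * b j)
          = algebraMap R F (c f i) * (algebraMap R F G * (b i * b j)) := by ring
        _ = _ := by
          rw [h4, Finset.mul_sum]
          refine Finset.sum_congr rfl fun l _ => ?_
          rw [map_mul]; ring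
    rw [Finset.sum_congr rfl (fun i _ => h3 i), Finset.sum_comm]
    refine Finset.sum_congr rfl fun l _ => ?_
    rw [Algebra.smul_def, ← hRF, ← Finset.sum_mul, ← map_sum]
  have hmat : Algebra.leftMulMatrix b x = M.map (algebraMap R E) := by
    ext l j
    rw [Algebra.leftMulMatrix_eq_repr_mul, hxb j, b.repr_sum_self, Matrix.map_apply]
  obtain ⟨P, hPd, hP⟩ := hW f f.2
  have hPne : P ≠ 0 := by
    rintro rfl
    rw [map_zero] at hP
    exact hf0 (Subtype.ext ((Algebra.norm_eq_zero_iff).1 hP.symm))
  have hdet : M.det = (G * G) ^ d * P := by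
    apply hinjE
    rw [RingHom.map_det, RingHom.mapMatrix_apply, ← hmat, ← Algebra.norm_eq_matrix_det, hx, map_mul,
      hRF, Algebra.norm_algebraMap, ← hP, ← map_pow, ← map_mul]
  let Mt : Matrix (Fin d) (Fin d) R[X] := fun l j => ∑ i, ct i * th a (z (Sum.inl (i, j, l)))
  have hMt : (th a).toRingHom.mapMatrix M = (X ^ m : R[X]) • Mt := by
    ext1 l j
    change th a (M l j) = X ^ m * Mt l j
    simp only [M, Mt, map_sum, Finset.mul_sum, map_mul]
    refine Finset.sum_congr rfl fun i _ => ?_
    rw [← mul_assoc, ← hct i]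
  have hth : th a M.det = X ^ (m * d) * Mt.det := by
    have h1 := RingHom.map_det (th a).toRingHom M
    rw [hMt, Matrix.det_smul, Fintype.card_fin, ← pow_mul] at h1
    exact h1
  -- the reduction of `Mt` is singular
  let M0 : Matrix (Fin d) (Fin d) R := fun l j => (Mt l j).coeff 0
  have hM0 : M0.det = Mt.det.coeff 0 := by
    have h1 := RingHom.map_det (evalRingHom (0 : R)) Mt
    rw [coeff_zero_eq_eval_zero]
    change _ = evalRingHom (0 : R) Mt.det
    rw [h1]
    congr 1
    ext1 l j
    change (Mt l j).coeff 0 = (Mt l j).eval 0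
    rw [coeff_zero_eq_eval_zero]
  have hM0' : ∀ l j, M0 l j = ∑ i, (th a (c f i)).coeff m *
      MvPolynomial.C (MvPolynomial.eval a (z (Sum.inl (i, j, l)))) := by
    intro l j
    simp only [M0, Mt, finsetSum_coeff, mul_coeff_zero, hct0]
    refine Finset.sum_congr rfl fun i _ => ?_
    rw [th_coeff_zero]
  have hsing : M0.det = 0 := by
    rw [← Matrix.exists_vecMul_eq_zero_iff]
    refine ⟨fun l => MvPolynomial.C (φb l), ?_, ?_⟩
    · intro h0
      have h1 := congrFun h0 l₀
      simp only [Pi.zero_apply] at h1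
      rw [← MvPolynomial.C_0] at h1
      exact hl₀ (MvPolynomial.C_injective _ _ h1)
    · funext j
      change ∑ l, MvPolynomial.C (φb l) * M0 l j = 0
      simp only [hM0', Finset.mul_sum]
      rw [Finset.sum_comm]
      have h1 : ∀ i, ∑ l, MvPolynomial.C (φb l) * ((th a (c f i)).coeff m *
          MvPolynomial.C (MvPolynomial.eval a (z (Sum.inl (i, j, l))))) =
          MvPolynomial.C (MvPolynomial.eval a G * φb j) *
            (MvPolynomial.C (φb i) * (th a (c f i)).coeff m) := by
        intro i
        have h2 : ∀ l, MvPolynomial.C (φb l) * ((th a (c f i)).coeff m *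
            MvPolynomial.C (MvPolynomial.eval a (z (Sum.inl (i, j, l))))) =
            (th a (c f i)).coeff m * MvPolynomial.C
              (MvPolynomial.eval a (z (Sum.inl (i, j, l))) * φb l) := by
          intro l
          rw [MvPolynomial.C_mul]; ring
        rw [Finset.sum_congr rfl (fun l _ => h2 l), ← Finset.mul_sum, ← map_sum, ← rel1 i j]
        simp only [MvPolynomial.C_mul]
        ring
      rw [Finset.sum_congr rfl (fun i _ => h1 i), ← Finset.mul_sum, hv2, mul_zero]
  obtain ⟨q, hq⟩ := X_dvd_iff.2 (hM0.symm.trans hsing)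
  have hfin : (X : R[X]) ^ (m * d + 1) ∣ (th a G * th a G) ^ d * th a P := by
    refine ⟨q, ?_⟩
    rw [← map_mul, ← map_pow, ← map_mul, ← hdet, hth, hq, pow_succ]
    ring
  have hnot : ¬ (X : R[X]) ∣ (th a G * th a G) ^ d := by
    intro h1
    have h2 := prime_X.dvd_of_dvd_pow h1
    have h3 : (X : R[X]) ∣ th a G := by
      rcases prime_X.dvd_or_dvd h2 with h | h <;> exact h
    rw [X_dvd_iff, th_coeff_zero, ← MvPolynomial.C_0] at h3
    exact hGa (MvPolynomial.C_injective _ _ h3)
  have hPdvd : (X : R[X]) ^ (m * d + 1) ∣ th a P :=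
    prime_X.pow_dvd_of_dvd_mul_left _ hnot hfin
  have h5 := natDegree_le_of_dvd hPdvd (th_ne_zero a hPne)
  rw [natDegree_X_pow] at h5
  have h6 := th_natDegree a P
  omega

end Pool.Agent.L5helper3.Hilb
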